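import Pool.Agent.U864.OT.Union
import Pool.Agent.N598.BT.Design

/-!
# Symmetric designs given by nondeterministic one-tape machines

The points and the blocks of a symmetric `2-(v, k, lam)` design have names, strings of `m` bits,
`2 ^ m ≤ D v`, in any labelling. Suppose that the set of the incident pairs (name of the point, name
of the block) is the union of `L ≤ v ^ β` sets of pairs, `β < 1 / 2`, each of which is decided by a
nondeterministic one-tape machine: the `2 m` bits of the two names are on the tape in some fixed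
order, the machine may rewrite the tape, the tape alphabet is arbitrary, and the table may depend on
the place; it has `q` states, accepts the pairs of the set in at most `T` steps, and
`T log₂ (q + 1) ≤ δ m²`. Then `v` is bounded in terms of `lam`, `D` and `β`, where `δ > 0` depends
only on `lam` and `β`: Hall's conjecture holds for these designs. The `L` machines may have different
numbers of states, times and orders of the bits. The theorem also holds for `lam = 1`: the incidence
relations of large projective planes satisfy the time-space tradeoff `T log₂ (q + 1) > δ (log₂ v)²`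
for one of the machines (as long as `L ≤ v ^ β`). Up to the value of `δ` this is best possible since
every relation is decided with `T = 2 m` by a machine which remembers the `2 m` bits in its states.

Proof. A machine with `T < B (l + 1)` gives a trellis which guesses the crossing sequences at the
boundaries which the head passes at most `l` times and remembers the bits since the last one
(`Pool/Agent/U864/OT/Trellis.lean`). It is a tree tensor network of small bond dimension over `ℚ`
(`Network.lean`), and the theorem of the library for tree tensor networks gives the result.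
-/

set_option autoImplicit false

namespace Pool.Agent.Results.MP_c38931_co.OneTapeMachines

open Pool.Agent.N598.BT Pool.Agent.U864.OT

/-- the set `R` of pairs of strings is the union of `L` sets which are decided by machines with
`T log₂ (q + 1) ≤ δ m²` -/
def UnionOfMachines (L : ℕ) (δ : ℝ) {m : ℕ} (R : Set (Fin 2 → Fin m → Bool)) : Prop :=
  ∃ F : Fin L → Set (Fin 2 → Fin m → Bool), (∀ i, SmallMachine δ (F i)) ∧ ⋃ i, F i = R

/-- the names of the incident pairs -/
def Incidence {m v : ℕ} (B : Fin v → Finset (Fin v)) (p b : Fin v → Fin m → Bool) :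
    Set (Fin 2 → Fin m → Bool) :=
  {x | ∃ i j, i ∈ B j ∧ x 0 = p i ∧ x 1 = b j}

theorem result (lam : ℕ) (β : ℝ) (hlam : 1 ≤ lam) (hβ : β < 1 / 2) :
    ∃ δ : ℝ, 0 < δ ∧ ∀ D : ℕ, ∃ N : ℕ, ∀ (v k : ℕ) (B : Fin v → Finset (Fin v)),
      (∀ i, (B i).card = k) →
      (∀ x y : Fin v, x ≠ y →
        (Finset.univ.filter (fun i => x ∈ B i ∧ y ∈ B i)).card = lam) →
      ∀ (m L : ℕ) (p b : Fin v → Fin m → Bool),
      Function.Injective p → Function.Injective b → 2 ^ m ≤ D * v → (L : ℝ) ≤ (v : ℝ) ^ β →
      UnionOfMachines L δ (Incidence B p b) → v ≤ N := by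
  obtain ⟨δ₀, hδ₀, h⟩ := design_finite lam β hlam hβ
  have hγ : 0 < δ₀ / 2 := by positivity
  obtain ⟨m₀, hm₀, hp⟩ := small_piece (δ := (δ₀ / 2) ^ 2 / 16) hγ (by
    have : 0 < (δ₀ / 2) ^ 2 := by positivity
    linarith)
  refine ⟨(δ₀ / 2) ^ 2 / 16, by positivity, fun D => ?_⟩
  obtain ⟨N, hN⟩ := h D
  obtain ⟨n₁, hn₁⟩ := exists_nat_ge ((2 : ℝ) ^ (1 / δ₀))
  refine ⟨max (max N D) (max (2 ^ m₀) n₁), fun v k B hk hB m L p b hp1 hb1 hD hL hU => ?_⟩
  by_contra hcon
  push Not at hcon
  have c1 : N < v := lt_of_le_of_lt ((le_max_left _ _).trans (le_max_left _ _)) hcon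
  have c2 : D < v := lt_of_le_of_lt ((le_max_right _ _).trans (le_max_left _ _)) hcon
  have c3 : 2 ^ m₀ < v := lt_of_le_of_lt ((le_max_left _ _).trans (le_max_right _ _)) hcon
  have c4 : n₁ < v := lt_of_le_of_lt ((le_max_right _ _).trans (le_max_right _ _)) hcon
  have hv : (0 : ℝ) < v := by
    have : 0 < v := by omega
    exact_mod_cast this
  -- the length of the names
  have hvm : v ≤ 2 ^ m := by
    have := Fintype.card_le_of_injective p hp1
    simpa using this
  have hm : m₀ ≤ m := by
    by_contra hlt
    have := Nat.pow_le_pow_right (show 0 < 2 by norm_num) (not_le.1 hlt).le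
    omega
  refine absurd (hN v k B hk hB Bool m L ⌊((2 : ℝ) ^ m) ^ (δ₀ / 2)⌋₊ p b hp1 hb1 ?_ ?_ hL ?_ ?_)
    (not_le.2 c1)
  · simpa using hD
  · rw [Fintype.card_bool]
    have h1 : (2 : ℝ) ^ (1 / δ₀) ≤ v := hn₁.trans (by exact_mod_cast c4.le)
    have h2 : ((2 : ℝ) ^ (1 / δ₀)) ^ δ₀ = 2 := by
      rw [← Real.rpow_mul (by norm_num), one_div_mul_cancel hδ₀.ne', Real.rpow_one]
    calc ((2 : ℕ) : ℝ) = ((2 : ℝ) ^ (1 / δ₀)) ^ δ₀ := by rw [h2]; norm_num
      _ ≤ (v : ℝ) ^ δ₀ := Real.rpow_le_rpow (by positivity) h1 hδ₀.le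
  · refine (Nat.floor_le (by positivity)).trans ?_
    have h1 : (2 : ℝ) ^ m ≤ (v : ℝ) ^ (2 : ℝ) := by
      have h2 : ((2 : ℝ) ^ m) ≤ (D : ℝ) * v := by exact_mod_cast hD
      have h3 : (D : ℝ) ≤ v := by exact_mod_cast c2.le
      rw [Real.rpow_two]
      nlinarith
    calc ((2 : ℝ) ^ m) ^ (δ₀ / 2) ≤ ((v : ℝ) ^ (2 : ℝ)) ^ (δ₀ / 2) :=
          Real.rpow_le_rpow (by positivity) h1 hγ.le
      _ = (v : ℝ) ^ δ₀ := by
          rw [← Real.rpow_mul hv.le]
          congr 1
          ring
  · obtain ⟨F, hF, hFU⟩ := hU
    exact ⟨F, fun i => hp 2 m (F i) (by norm_num) hm (hF i), hFU⟩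

end Pool.Agent.Results.MP_c38931_co.OneTapeMachines
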