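import Pool.Agent.U646.HC.P4

set_option autoImplicit false

/-!
# Prime block sizes of symmetric designs
-/

namespace Pool.Agent.Results.MP_c38931_co.PrimeBlockSizes

open Finset Filter Topology
open scoped Classical

/-- `k` is a block size for the index `lam`: for some `v` there is a symmetric `2-(v, k, lam)` design
with `2 ≤ k < v` (`v` blocks of size `k` on `v` points, every pair of distinct points in exactly
`lam` blocks), and `lam` is not a perfect square or `v` is not congruent to `1` modulo `4`. -/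
def IsBlockSize (lam k : ℕ) : Prop := ∃ (v : ℕ) (B : Fin v → Finset (Fin v)),
  2 ≤ k ∧ k < v ∧ (∀ i, (B i).card = k) ∧
  (∀ x y : Fin v, x ≠ y →
    (Finset.univ.filter (fun i => x ∈ B i ∧ y ∈ B i)).card = lam) ∧
  (¬ IsSquare lam ∨ v % 4 ≠ 1)

/-- `n + h i` is a block size for the index `lam i` for all `i`, and all `n + u j` are primes. -/
def SizesAndPrimes {r t : ℕ} (lam h : Fin r → ℕ) (u : Fin t → ℕ) (n : ℕ) : Prop :=
  (∀ i, IsBlockSize (lam i) (n + h i)) ∧ ∀ j, (n + u j).Prime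

/-- The `r + t` integers `h i - lam i` and `u j` are different. -/
def Distinct {r t : ℕ} (lam h : Fin r → ℕ) (u : Fin t → ℕ) : Prop :=
  (∀ i j, i ≠ j → (h i : ℤ) - lam i ≠ h j - lam j) ∧ (∀ i j, i ≠ j → u i ≠ u j) ∧
    ∀ i j, (h i : ℤ) - lam i ≠ u j

/-- `p` is a prime and a block size for an index at most `exp ((log p) ^ δ)`. -/
def PrimeOfSmallIndex (δ : ℝ) (p : ℕ) : Prop :=
  p.Prime ∧ ∃ lam : ℕ, 1 ≤ lam ∧ (lam : ℝ) ≤ Real.exp ((Real.log p) ^ δ) ∧ IsBlockSize lam p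

/-- (1) Let `r, t ≥ 1`. Uniformly in the indices and in the shifts, `n + h i` is a block size for the
index `lam i ≤ Λ` for all `i ≤ r` and `n + u j` is a prime for all `j ≤ t` for at most
`C N (1 + log Λ) ^ (r/2) (log N) ^ (ε - r/2 - t)` integers `n` of an interval of length `N`, if the
`r + t` numbers `h i - lam i` and `u j` are different. (For `r = t = 1` and `h = u = 0`: primes which
are block sizes for the index `lam`.)
(2) For fixed indices and shifts the sum of `1 / n` over these `n` converges.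
(3) An interval of length `N` contains at most `C N (1 + log Λ) ^ (3/2) (log N) ^ (ε - 3/2)` primes
which are block sizes for some index at most `Λ`.
(4) If `0 < δ < 1/3`, then the sum of `1 / p` over all primes `p` which are block sizes for an index at
most `exp ((log p) ^ δ)` converges, and there are `o (X / log X)` of them below `X`. -/
theorem result :
    (∀ r t A : ℕ, 1 ≤ r → 1 ≤ t → ∀ ε : ℝ, 0 < ε → ∃ C : ℝ, 0 < C ∧ ∀ N : ℕ, 3 ≤ N →
      ∀ Λ : ℕ, 1 ≤ Λ → Λ ≤ N ^ A → ∀ (lam h : Fin r → ℕ) (u : Fin t → ℕ),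
      (∀ i, 1 ≤ lam i ∧ lam i ≤ Λ) → (∀ i, h i ≤ N ^ A) → (∀ j, u j ≤ N ^ A) →
      Distinct lam h u → ∀ a : ℕ,
      (((Ioc a (a + N)).filter (SizesAndPrimes lam h u)).card : ℝ) ≤
        C * N * (1 + Real.log Λ) ^ ((r : ℝ) / 2) * (Real.log N) ^ (ε - (r : ℝ) / 2 - t)) ∧
    (∀ r t : ℕ, 1 ≤ r → 1 ≤ t → ∀ (lam h : Fin r → ℕ) (u : Fin t → ℕ), (∀ i, 1 ≤ lam i) →
      Distinct lam h u →
      Summable (fun n : ℕ => if SizesAndPrimes lam h u n then 1 / (n : ℝ) else 0)) ∧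
    (∀ ε : ℝ, 0 < ε → ∃ C : ℝ, 0 < C ∧ ∀ N : ℕ, 3 ≤ N → ∀ Λ : ℕ, 1 ≤ Λ → ∀ a : ℕ,
      (((Ioc a (a + N)).filter (fun p : ℕ => p.Prime ∧
        ∃ lam : ℕ, 1 ≤ lam ∧ lam ≤ Λ ∧ IsBlockSize lam p)).card : ℝ) ≤
        C * N * (1 + Real.log Λ) ^ (3 / 2 : ℝ) * (Real.log N) ^ (ε - 3 / 2)) ∧
    (∀ δ : ℝ, 0 < δ → δ < 1 / 3 →
      Summable (fun p : ℕ => if PrimeOfSmallIndex δ p then 1 / (p : ℝ) else 0) ∧
      Tendsto (fun X : ℕ => (((range X).filter (PrimeOfSmallIndex δ)).card : ℝ) /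
        (X / Real.log X)) atTop (𝓝 0)) := by
  refine ⟨?_, ?_, ?_, ?_⟩
  · intro r t A hr ht ε hε
    obtain ⟨C, hC, H⟩ := Pool.Agent.U646.HC.tuples2 r t A (by omega) ε hε
    refine ⟨C, hC, ?_⟩
    intro N hN Λ hΛ hΛN lam h u hlam hh hu hd a
    have h1 := H N hN Λ hΛ hΛN lam h u hlam hh hu hd.1 hd.2.1 (by
      intro i j hij
      have := hd.2.2 i j
      omega) a
    rw [sub_add_eq_sub_sub] at h1
    exact h1
  · intro r t hr ht lam h u hlam hd
    exact Pool.Agent.U646.HC.brun2 r t (by omega) lam h u hlam hd.1 hd.2.1 (by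
      intro i j hij
      have := hd.2.2 i j
      omega)
  · intro ε hε
    exact Pool.Agent.U646.HC.smallp ε hε
  · intro δ h0 h1
    exact ⟨Pool.Agent.U646.HC.sp_sum δ h0 h1, Pool.Agent.U646.HC.sp_dens δ h0 h1⟩

end Pool.Agent.Results.MP_c38931_co.PrimeBlockSizes
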