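import Pool.Agent.U671.ST.Sym

/-!
# Designs whose blocks are described by semialgebraic or algebraic sets

The points of a `2-(v, k, lam)` design are placed in `ℝ^d` in any way. How complicated are the
blocks? The complexity of a semialgebraic set is the sum of the degrees of the polynomials in a
description.

(1) If `2 k ≤ v` and the blocks are described by semialgebraic sets of complexity at most `D` (errors
for a small proportion of the incidences are allowed), then `k ≤ C D ^ d`, where `C` depends on `d` only.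

(2) So symmetric designs with `2 k ≤ v` satisfy `lam v ≤ C D ^ (2 d)`: for them Hall's conjecture
holds in the class of designs of complexity `D = o((lam v) ^ (1 / (2 d)))`.

(3) This is best possible for all `lam`: the points of every symmetric design can be placed at distinct
points of `ℝ^d` such that the blocks are zero sets of polynomials of degree `D`, `D ^ (2 d) ≤ C lam v`.

(4) If the points are placed in `F^d`, `F` any field of characteristic zero, and the blocks are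
described by Boolean combinations of polynomial equations with sum of the degrees at most `D`, then
`lam v ≤ C D ^ (4 d)`.

(5) Weak correlation. Suppose that for at least `ρ b` of the `b` blocks `B` there is a semialgebraic
set of complexity at most `D` that contains at most `M` points of the design, and at least `ε k`
points of `B`. Then, with `θ = D / (ρ ε ^ 2)`, either `k ≤ C θ ^ d` or `ρ ε v ≤ C M θ ^ d`; so symmetric
designs satisfy `v ≤ C lam a ^ 2 θ ^ (2 d) / (ρ ε) ^ 2` if `M = a k`, `a ≥ 1`.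

Proof: polynomial partitioning (Guth-Katz) in the form of the starting library `R98/EQ`; count the
pairs of points in the same cell which are separated by blocks (1), or in the same block (5); in (4),
countable domains of characteristic zero embed into `ℂ`, and real and imaginary parts.
-/

set_option autoImplicit false

namespace Pool.Agent.Results.MP_c38931_co.SemialgebraicBlocks

open MvPolynomial Finset Pool.Agent.U671.VS Pool.Agent.U671.ST

open scoped Classical

theorem sym_rel {v k lam : ℕ} (B : Fin v → Finset (Fin v)) (h : IsDesign k lam B) :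
    lam * (v - 1) = k * (k - 1) := by
  have hv : 0 < v := by have := h.lt; omega
  have h1 := Pool.Agent.U671.SD.rep B h.card h.pairs
  have h2 := Pool.Agent.U671.SD.flags B univ
  have h3 : ∀ j, (B j ∩ univ).card = k := fun j => by rw [Finset.inter_univ, h.card]
  rw [Finset.sum_congr rfl (fun j _ => h3 j), Finset.sum_const, Finset.card_univ, Fintype.card_fin,
    smul_eq_mul] at h2
  have h4 : v * k * (k - 1) = v * (lam * (v - 1)) := by
    rw [h2, Finset.sum_mul, Finset.sum_congr rfl (fun x _ => h1 x), Finset.sum_const,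
      Finset.card_univ, Fintype.card_fin, smul_eq_mul]
  rw [mul_assoc] at h4
  exact (Nat.eq_of_mul_eq_mul_left hv h4).symm

theorem lam_mul {v k lam : ℕ} (B : Fin v → Finset (Fin v)) (h : IsDesign k lam B) :
    lam * v ≤ k ^ 2 := by
  have hrel := sym_rel B h
  have hk2 := h.two_le
  have hkv := h.lt
  have hl : lam ≤ k := by
    by_contra hcon
    push Not at hcon
    have h1 : k * (k - 1) < lam * (v - 1) := by
      calc k * (k - 1) ≤ k * (v - 1) := Nat.mul_le_mul_left _ (by omega)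
        _ < lam * (v - 1) := Nat.mul_lt_mul_of_pos_right hcon (by omega)
    omega
  calc lam * v = lam * (v - 1) + lam := by
        obtain ⟨v', rfl⟩ : ∃ v', v = v' + 1 := ⟨v - 1, by omega⟩
        rw [Nat.add_sub_cancel]
        ring
    _ ≤ k * (k - 1) + k := by rw [hrel]; exact Nat.add_le_add_left hl _
    _ = k ^ 2 := by
        obtain ⟨k', rfl⟩ : ∃ k', k = k' + 1 := ⟨k - 1, by omega⟩
        rw [Nat.add_sub_cancel]
        ring

/-- Let `d ≥ 1`. There is a constant `C` with the following properties.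
(1) Let the points of a `2-(v, k, lam)` design with `b` blocks and `2 k ≤ v` be placed in `ℝ^d` in any
way. If the blocks are described by semialgebraic sets of complexity at most `D` with at most `b k / C`
errors in total, then `k ≤ C D ^ d`.
(2) If the design is symmetric, then `lam v ≤ C D ^ (2 d)` in (1).
(3) Conversely, the points of every symmetric design can be placed in `ℝ^d` at distinct places such
that every block is cut out by the zero set of a polynomial of degree at most `D`, for some `D` with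
`D ^ (2 d) ≤ C lam v`.
(4) Let `F` be a field of characteristic zero, and let the points of a symmetric design with
`2 k ≤ v` be placed in `F^d` in any way. If the blocks are described by constructible sets of
complexity at most `D` with at most `v k / C` errors in total, then `lam v ≤ C D ^ (4 d)`.
(5) Let the points of a `2-(v, k, lam)` design be placed in `ℝ^d` in any way. If for at least `ρ b`
blocks there is a semialgebraic set of complexity at most `D` with at most `M` of the points, but at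
least `ε k` points of the block, then `k ≤ C θ ^ d` or `ρ ε v ≤ C M θ ^ d`, `θ = D / (ρ ε ^ 2)`.
If the design is symmetric and `M = a k`, `a ≥ 1`, then `v ≤ C lam a ^ 2 θ ^ (2 d) / (ρ ε) ^ 2`. -/
theorem result (d : ℕ) (hd : 1 ≤ d) : ∃ C : ℝ, 1 ≤ C ∧
    -- (1)
    (∀ (v b k lam : ℕ) (B : Fin b → Finset (Fin v)), IsDesign k lam B → 2 * k ≤ v →
      ∀ (D : ℕ) (x : Fin v → Fin d → ℝ) (S : Fin b → Set (Fin d → ℝ)), 1 ≤ D →
      (∀ j, SemiAlg d D (S j)) → C * ((∑ j, wrong x (B j) (S j) : ℕ) : ℝ) ≤ b * k →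
      (k : ℝ) ≤ C * D ^ d) ∧
    -- (2)
    (∀ (v k lam : ℕ) (B : Fin v → Finset (Fin v)), IsDesign k lam B → 2 * k ≤ v →
      ∀ (D : ℕ) (x : Fin v → Fin d → ℝ) (S : Fin v → Set (Fin d → ℝ)), 1 ≤ D →
      (∀ j, SemiAlg d D (S j)) → C * ((∑ j, wrong x (B j) (S j) : ℕ) : ℝ) ≤ v * k →
      (lam : ℝ) * v ≤ C * D ^ (2 * d)) ∧
    -- (3)
    (∀ (v k lam : ℕ) (B : Fin v → Finset (Fin v)), IsDesign k lam B →
      ∃ (x : Fin v → Fin d → ℝ) (D : ℕ), Function.Injective x ∧
        (D : ℝ) ^ (2 * d) ≤ C * lam * v ∧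
        ∀ j, ∃ g : MvPolynomial (Fin d) ℝ, g.totalDegree ≤ D ∧
          ∀ i, eval (x i) g = 0 ↔ i ∈ B j) ∧
    -- (4)
    (∀ (v k lam : ℕ) (B : Fin v → Finset (Fin v)), IsDesign k lam B → 2 * k ≤ v →
      ∀ (F : Type) [Field F] [CharZero F] (D : ℕ) (x : Fin v → Fin d → F)
        (S : Fin v → Set (Fin d → F)), 1 ≤ D →
      (∀ j, Constructible F d D (S j)) → C * ((∑ j, wrong x (B j) (S j) : ℕ) : ℝ) ≤ v * k →
      (lam : ℝ) * v ≤ C * D ^ (4 * d)) ∧
    -- (5)
    (∀ (v b k lam : ℕ) (B : Fin b → Finset (Fin v)), IsDesign k lam B →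
      ∀ (x : Fin v → Fin d → ℝ) (D : ℕ) (M ρ ε : ℝ), 1 ≤ D → 0 < ρ → ρ ≤ 1 → 0 < ε → ε ≤ 1 →
      Correlated k B x D M ρ ε →
      (k : ℝ) ≤ C * (D / (ρ * ε ^ 2)) ^ d ∨ ρ * ε * v ≤ C * M * (D / (ρ * ε ^ 2)) ^ d) ∧
    (∀ (v k lam : ℕ) (B : Fin v → Finset (Fin v)), IsDesign k lam B →
      ∀ (x : Fin v → Fin d → ℝ) (D : ℕ) (a ρ ε : ℝ), 1 ≤ D → 1 ≤ a → 0 < ρ → ρ ≤ 1 → 0 < ε →
      ε ≤ 1 → Correlated k B x D (a * k) ρ ε →
      (v : ℝ) ≤ C * lam * a ^ 2 * (D / (ρ * ε ^ 2)) ^ (2 * d) / (ρ * ε) ^ 2) := by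
  obtain ⟨C, hC, h1⟩ := part1 d hd
  obtain ⟨C3, hC3, h3⟩ := design_bound d hd
  obtain ⟨C4, hC4, h4⟩ := design_bound_alg d hd
  have hC3' : (1 : ℝ) ≤ C3 := by exact_mod_cast hC3
  have hC4' : (1 : ℝ) ≤ C4 := by exact_mod_cast hC4
  have hC0 : 0 < C := by linarith
  have hCC : C ≤ 2 * C ^ 2 := by nlinarith
  have h2d : (1 : ℝ) ≤ (2 * (d : ℝ)) ^ (2 * d) := by
    have : (1 : ℝ) ≤ d := by exact_mod_cast hd
    exact one_le_pow₀ (by linarith)
  -- part 2 with the constant `2 C ^ 2`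
  have h2 : ∀ (v k lam : ℕ) (B : Fin v → Finset (Fin v)), IsDesign k lam B →
      ∀ (x : Fin v → Fin d → ℝ) (D : ℕ) (a ρ ε : ℝ), 1 ≤ D → 1 ≤ a → 0 < ρ → ρ ≤ 1 → 0 < ε →
      ε ≤ 1 → Correlated k B x D (a * k) ρ ε →
      (v : ℝ) ≤ 2 * C ^ 2 * lam * a ^ 2 * (D / (ρ * ε ^ 2)) ^ (2 * d) / (ρ * ε) ^ 2 := by
    intro v k lam B hB x D a ρ ε hD ha hρ hρ1 hε hε1 hcor
    have hrel := sym_rel B hB
    have hk2 := hB.two_le
    have hkv := hB.lt
    have hl1 : (1 : ℝ) ≤ lam := by exact_mod_cast hB.one_le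
    have hk2' : (2 : ℝ) ≤ k := by exact_mod_cast hk2
    have hkv' : (k : ℝ) < v := by exact_mod_cast hkv
    have hrel' : (lam : ℝ) * (v - 1) = k * (k - 1) := by
      have h3 : ((lam * (v - 1) : ℕ) : ℝ) = ((k * (k - 1) : ℕ) : ℝ) := by exact_mod_cast hrel
      rw [Nat.cast_mul, Nat.cast_mul, Nat.cast_sub (by omega), Nat.cast_sub (by omega)] at h3
      simpa using h3
    set θ : ℝ := D / (ρ * ε ^ 2) with hθ
    have hθ0 : 0 ≤ θ := by positivity
    have hρε : 0 < ρ * ε := mul_pos hρ hε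
    have hρε1 : ρ * ε ≤ 1 := mul_le_one₀ hρ1 hε.le hε1
    rw [le_div_iff₀ (by positivity), pow_mul, ← pow_mul, Nat.mul_comm 2 d, pow_mul]
    rcases h1 v v k lam B hB x D (a * k) ρ ε hD hρ hρ1 hε hε1 hcor with h3 | h3
    · have h4 : (v : ℝ) ≤ k ^ 2 := by nlinarith
      have h5 : (v : ℝ) ≤ (C * θ ^ d) ^ 2 := h4.trans (pow_le_pow_left₀ (by positivity) h3 2)
      have h6 : (ρ * ε) ^ 2 ≤ 1 := pow_le_one₀ hρε.le hρε1
      have ha2 : (1 : ℝ) ≤ a ^ 2 := one_le_pow₀ ha
      have hla : (1 : ℝ) ≤ lam * a ^ 2 := by nlinarith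
      calc (v : ℝ) * (ρ * ε) ^ 2 ≤ v * 1 := by gcongr
        _ ≤ (C * θ ^ d) ^ 2 := by rw [mul_one]; exact h5
        _ ≤ (C * θ ^ d) ^ 2 * (2 * (lam * a ^ 2)) := by
            refine le_mul_of_one_le_right (sq_nonneg _) (by linarith)
        _ = _ := by ring
    · have h4 : (k : ℝ) ^ 2 ≤ 2 * lam * v := by nlinarith
      have h5 : (ρ * ε * v) ^ 2 ≤ (C * (a * k) * θ ^ d) ^ 2 :=
        pow_le_pow_left₀ (by positivity) h3 2
      have h6 : (v : ℝ) * (v * (ρ * ε) ^ 2) ≤ v * (2 * C ^ 2 * lam * a ^ 2 * (θ ^ d) ^ 2) := by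
        calc (v : ℝ) * (v * (ρ * ε) ^ 2) = (ρ * ε * v) ^ 2 := by ring
          _ ≤ (C * (a * k) * θ ^ d) ^ 2 := h5
          _ = (C * a * θ ^ d) ^ 2 * k ^ 2 := by ring
          _ ≤ (C * a * θ ^ d) ^ 2 * (2 * lam * v) := by gcongr
          _ = _ := by ring
      exact le_of_mul_le_mul_left h6 (by linarith)
  obtain ⟨C', hC'1, hC'2, hC'5, hC'6⟩ : ∃ C' : ℝ, 2 * C ^ 2 ≤ C' ∧
      2 * (2 * (d : ℝ)) ^ (2 * d) ≤ C' ∧ (C3 : ℝ) ^ 2 ≤ C' ∧ (C4 : ℝ) ^ 2 ≤ C' := by
    refine ⟨2 * C ^ 2 + 2 * (2 * (d : ℝ)) ^ (2 * d) + (C3 : ℝ) ^ 2 + (C4 : ℝ) ^ 2, ?_, ?_, ?_, ?_⟩ <;>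
    nlinarith [sq_nonneg C, sq_nonneg (C3 : ℝ), sq_nonneg (C4 : ℝ)]
  have hC'3 : 1 ≤ C' := by linarith
  have hC3C' : (C3 : ℝ) ≤ C' := by nlinarith
  have hC4C' : (C4 : ℝ) ≤ C' := by nlinarith
  -- the exact bounds for `k`
  have hk1 : ∀ (v b k lam : ℕ) (B : Fin b → Finset (Fin v)), IsDesign k lam B → 2 * k ≤ v →
      ∀ (D : ℕ) (x : Fin v → Fin d → ℝ) (S : Fin b → Set (Fin d → ℝ)), 1 ≤ D →
      (∀ j, SemiAlg d D (S j)) → C' * ((∑ j, wrong x (B j) (S j) : ℕ) : ℝ) ≤ b * k →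
      k ≤ C3 * D ^ d := by
    intro v b k lam B hB h2k D x S hD hS hE
    refine h3 v b k lam B hB h2k D x S hD hS ?_
    have h5 : (C3 : ℝ) * ((∑ j, wrong x (B j) (S j) : ℕ) : ℝ) ≤ b * k :=
      (mul_le_mul_of_nonneg_right hC3C' (Nat.cast_nonneg _)).trans hE
    exact_mod_cast h5
  refine ⟨C', hC'3, ?_, ?_, ?_, ?_, ?_, ?_⟩
  · intro v b k lam B hB h2k D x S hD hS hE
    have h5 := hk1 v b k lam B hB h2k D x S hD hS hE
    have h6 : (k : ℝ) ≤ C3 * (D : ℝ) ^ d := by exact_mod_cast h5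
    exact h6.trans (mul_le_mul_of_nonneg_right hC3C' (by positivity))
  · intro v k lam B hB h2k D x S hD hS hE
    have h5 := hk1 v v k lam B hB h2k D x S hD hS hE
    have h6 : (k : ℝ) ≤ C3 * (D : ℝ) ^ d := by exact_mod_cast h5
    have h7 : (lam : ℝ) * v ≤ (k : ℝ) ^ 2 := by exact_mod_cast lam_mul B hB
    calc (lam : ℝ) * v ≤ (k : ℝ) ^ 2 := h7
      _ ≤ (C3 * (D : ℝ) ^ d) ^ 2 := pow_le_pow_left₀ (Nat.cast_nonneg _) h6 2
      _ = (C3 : ℝ) ^ 2 * (D : ℝ) ^ (2 * d) := by rw [mul_pow, ← pow_mul, Nat.mul_comm d 2]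
      _ ≤ C' * (D : ℝ) ^ (2 * d) := mul_le_mul_of_nonneg_right hC'5 (by positivity)
  · intro v k lam B hB
    obtain ⟨x, D, hx, hD, hcut⟩ := Pool.Agent.U671.SD.sharp d v k hd
    refine ⟨x, D, hx, ?_, fun j => hcut (B j) (hB.card j).le⟩
    have hrel := sym_rel B hB
    have hk2 := hB.two_le
    have hkv := hB.lt
    have hl1 : (1 : ℝ) ≤ lam := by exact_mod_cast hB.one_le
    have hk2' : (2 : ℝ) ≤ k := by exact_mod_cast hk2
    have hkv' : (k : ℝ) < v := by exact_mod_cast hkv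
    have hrel' : (lam : ℝ) * (v - 1) = k * (k - 1) := by
      have h3 : ((lam * (v - 1) : ℕ) : ℝ) = ((k * (k - 1) : ℕ) : ℝ) := by exact_mod_cast hrel
      rw [Nat.cast_mul, Nat.cast_mul, Nat.cast_sub (by omega), Nat.cast_sub (by omega)] at h3
      simpa using h3
    have h4 : (k : ℝ) ^ 2 ≤ 2 * lam * v := by nlinarith
    have hD' : (D : ℝ) ^ d ≤ (2 * d) ^ d * k := by exact_mod_cast hD
    calc (D : ℝ) ^ (2 * d) = (D ^ d) ^ 2 := by rw [Nat.mul_comm 2 d, pow_mul]
      _ ≤ ((2 * d) ^ d * k) ^ 2 := pow_le_pow_left₀ (by positivity) hD' 2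
      _ = (2 * (d : ℝ)) ^ (2 * d) * k ^ 2 := by rw [Nat.mul_comm 2 d, pow_mul (2 * (d : ℝ))]; ring
      _ ≤ (2 * (d : ℝ)) ^ (2 * d) * (2 * lam * v) := by gcongr
      _ = (2 * (2 * (d : ℝ)) ^ (2 * d)) * lam * v := by ring
      _ ≤ C' * lam * v := by gcongr
  · intro v k lam B hB h2k F _ _ D x S hD hS hE
    have h5 := h4 v v k lam B hB h2k F D x S hD hS (by
      have h5 : (C4 : ℝ) * ((∑ j, wrong x (B j) (S j) : ℕ) : ℝ) ≤ v * k :=
        (mul_le_mul_of_nonneg_right hC4C' (Nat.cast_nonneg _)).trans hE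
      exact_mod_cast h5)
    have h6 : (k : ℝ) ≤ C4 * (D : ℝ) ^ (2 * d) := by exact_mod_cast h5
    have h7 : (lam : ℝ) * v ≤ (k : ℝ) ^ 2 := by exact_mod_cast lam_mul B hB
    calc (lam : ℝ) * v ≤ (k : ℝ) ^ 2 := h7
      _ ≤ (C4 * (D : ℝ) ^ (2 * d)) ^ 2 := pow_le_pow_left₀ (Nat.cast_nonneg _) h6 2
      _ = (C4 : ℝ) ^ 2 * (D : ℝ) ^ (4 * d) := by
        rw [mul_pow, ← pow_mul]
        congr 2
        ring
      _ ≤ C' * (D : ℝ) ^ (4 * d) := mul_le_mul_of_nonneg_right hC'6 (by positivity)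
  · intro v b k lam B hB x D M ρ ε hD hρ hρ1 hε hε1 hcor
    have hθ0 : (0 : ℝ) ≤ (D / (ρ * ε ^ 2)) ^ d := by positivity
    have hCC' : C ≤ C' := hCC.trans hC'1
    rcases h1 v b k lam B hB x D M ρ ε hD hρ hρ1 hε hε1 hcor with h3 | h3
    · left
      exact h3.trans (mul_le_mul_of_nonneg_right hCC' hθ0)
    · right
      have hv0 : (0 : ℝ) < ρ * ε * v := by
        have := hB.lt
        exact mul_pos (mul_pos hρ hε) (by exact_mod_cast (by omega : 0 < v))
      have hMθ : 0 < M * (D / (ρ * ε ^ 2)) ^ d := by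
        have h4 : 0 < C * (M * (D / (ρ * ε ^ 2)) ^ d) := by linarith
        exact pos_of_mul_pos_right h4 hC0.le
      calc ρ * ε * v ≤ C * (M * (D / (ρ * ε ^ 2)) ^ d) := by linarith
        _ ≤ C' * (M * (D / (ρ * ε ^ 2)) ^ d) :=
          mul_le_mul_of_nonneg_right hCC' hMθ.le
        _ = _ := by ring
  · intro v k lam B hB x D a ρ ε hD ha hρ hρ1 hε hε1 hcor
    refine (h2 v k lam B hB x D a ρ ε hD ha hρ hρ1 hε hε1 hcor).trans ?_
    refine div_le_div_of_nonneg_right ?_ (by positivity)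
    gcongr

end Pool.Agent.Results.MP_c38931_co.SemialgebraicBlocks
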