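import Pool.Agent.U646.HC.I

set_option autoImplicit false

/-!
# Tuples of block sizes of symmetric designs with given indices
-/

namespace Pool.Agent.Results.MP_c38931_co.TuplesOfBlockSizes

open Finset Filter Topology
open scoped Classical

/-- `k` is a block size for the index `lam`: for some `v` there is a symmetric `2-(v, k, lam)` design
with `2 ≤ k < v` (`v` blocks of size `k` on `v` points, every pair of distinct points in exactly
`lam` blocks), and `lam` is not a perfect square or `v` is not congruent to `1` modulo `4`. -/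
def IsBlockSize (lam k : ℕ) : Prop := ∃ (v : ℕ) (B : Fin v → Finset (Fin v)),
  2 ≤ k ∧ k < v ∧ (∀ i, (B i).card = k) ∧
  (∀ x y : Fin v, x ≠ y →
    (Finset.univ.filter (fun i => x ∈ B i ∧ y ∈ B i)).card = lam) ∧
  (¬ IsSquare lam ∨ v % 4 ≠ 1)

/-- `n` is a block size for the index `lam`, and there are `r` further ones at distance at most
`(log n) ^ β` from `n`. -/
def Cluster (lam r : ℕ) (β : ℝ) (n : ℕ) : Prop :=
  IsBlockSize lam n ∧ ∃ T : Finset ℕ, T.card = r ∧
    ∀ m ∈ T, m ≠ n ∧ IsBlockSize lam m ∧ |(m : ℝ) - n| ≤ (Real.log n) ^ β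

/-- (1) Uniformly in the indices and in the shifts, `n + h i` is simultaneously a block size for the
index `lam i ≤ Λ` (`i = 1, ..., r`) for at most `C N (1 + log Λ) ^ (r/2) (log N) ^ (ε - r/2)` integers
`n` of an interval of length `N`, if the `r` numbers `h i - lam i` are different (for one index: if
the shifts are different; for `h = 0`: if the indices are different).
(2) If `r ≥ 3`, then the sum of `1 / n` over these `n` converges, for fixed indices and shifts.
(3) If `β < (r - 1) / (2 r)`, then the sum of `1 / n` over all block sizes `n` for the index `lam` with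
`r` further block sizes at distance at most `(log n) ^ β` converges.
(4) For one index `lam ≤ √N` an interval of length `N` contains at most
`C N (d(lam) / lam) (1 + log lam) ^ (1/2) (log N) ^ (ε - 1/2)` block sizes, where `C` depends only on
`ε` and `d(lam)` is the number of divisors. -/
theorem result :
    (∀ r A : ℕ, 1 ≤ r → ∀ ε : ℝ, 0 < ε → ∃ C : ℝ, 0 < C ∧ ∀ N : ℕ, 3 ≤ N → ∀ Λ : ℕ, 1 ≤ Λ →
      Λ ≤ N ^ A → ∀ lam h : Fin r → ℕ, (∀ i, 1 ≤ lam i ∧ lam i ≤ Λ) → (∀ i, h i ≤ N ^ A) →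
      (∀ i j, i ≠ j → (h i : ℤ) - lam i ≠ h j - lam j) → ∀ a : ℕ,
      (((Ioc a (a + N)).filter (fun n => ∀ i, IsBlockSize (lam i) (n + h i))).card : ℝ) ≤
        C * N * (1 + Real.log Λ) ^ ((r : ℝ) / 2) * (Real.log N) ^ (ε - (r : ℝ) / 2)) ∧
    (∀ r : ℕ, 3 ≤ r → ∀ lam h : Fin r → ℕ, (∀ i, 1 ≤ lam i) →
      (∀ i j, i ≠ j → (h i : ℤ) - lam i ≠ h j - lam j) →
      Summable (fun n : ℕ => if ∀ i, IsBlockSize (lam i) (n + h i) then 1 / (n : ℝ) else 0)) ∧
    (∀ lam r : ℕ, 1 ≤ lam → ∀ β : ℝ, 0 ≤ β → 2 * r * β < r - 1 →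
      Summable (fun n : ℕ => if Cluster lam r β n then 1 / (n : ℝ) else 0)) ∧
    (∀ ε : ℝ, 0 < ε → ∃ C : ℝ, 0 < C ∧ ∀ N : ℕ, 3 ≤ N → ∀ lam : ℕ, 1 ≤ lam → lam * lam ≤ N →
      ∀ a : ℕ, (((Ioc a (a + N)).filter (fun n => IsBlockSize lam n)).card : ℝ) ≤
        C * N * ((lam.divisors.card : ℝ) / lam) * (1 + Real.log lam) ^ (1 / 2 : ℝ) *
          (Real.log N) ^ (ε - 1 / 2)) := by
  refine ⟨?_, ?_, ?_, ?_⟩
  · intro r A hr ε hε
    exact Pool.Agent.U646.HC.tuples r A hr ε hε
  · intro r hr lam h hlam hinj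
    exact Pool.Agent.U646.HC.brun r hr lam h hlam hinj
  · intro lam r hlam β h0 h1
    exact Pool.Agent.U646.HC.cluster_sum lam r hlam β h0 h1
  · intro ε hε
    exact Pool.Agent.U646.HC.one_index ε hε

end Pool.Agent.Results.MP_c38931_co.TuplesOfBlockSizes
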